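import Pool.Agent.MPc0d803.Defs
import Pool.Agent.MPc0d803.Final

set_option autoImplicit false

namespace Pool.Agent.Results.MP_c0d803_al.IndexedNotContextFree

open Pool.Agent.MPc0d803

/-- There is a finitely generated group with a presentation `⟨Δ; w = 1 (w ∈ L)⟩`, `Δ` finite,
`L` an indexed language, and with no presentation `⟨Δ'; w = 1 (w ∈ L')⟩`, `Δ'` finite, `L'` a
context-free language. -/
theorem result : ∃ (G : Type) (_ : Group G),
    Group.FG G ∧ IsNestedStackGroup G ∧ ¬ IsContextFreeGroup G :=
  main

end Pool.Agent.Results.MP_c0d803_al.IndexedNotContextFree
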